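import Pool.Agent.H588R3.Final

set_option autoImplicit false

open MeasureTheory ProbabilityTheory Filter Topology
open scoped NNReal ENNReal

namespace Pool.Agent.Y244.FPP

open Pool.Agent.H588R3.FPP

variable {d : ℕ}

/-- The one-level theorem for all large `m`. -/
theorem one_level_all (hd2 : 2 ≤ d) (n : ℕ) (hn : 1 ≤ n) (m : ℕ) (hm : n + 4 * kap d n + 3 ≤ m) :
    ∃ (q₀ : ℝ), 0 < q₀ ∧ ∀ (ν : Measure (Fin 3)) (q : ℝ), Lev ν q → q < q₀ →
      (QQ d ν).real (evN d m (kap d n)) < (QQ d ν).real (evE d n) := by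
  classical
  have hd : 1 ≤ d := by omega
  set κ := kap d n with hκ
  have hκ1 : 1 ≤ κ := by rw [hκ, kap]; omega
  set Λ : Finset (Fin d → ℤ) := box (axis d 0) (n + 2 * κ) with hΛ
  set C : ℝ := (((Λ.powerset ×ˢ Λ.powerset).card : ℝ)
          + 2 * ((Λ.powerset.card : ℝ) * ((Λ.powerset ×ˢ Λ.powerset).card : ℝ)
            * 2 ^ (touch Λ).card)) + (2 ^ (inn (box (axis d 0) (m + 2 * κ))).card : ℝ) with hC
  have hC0 : 0 ≤ C := by positivity
  set M := (inn (seg d n)).card with hM
  refine ⟨1 / (M + C + 1), by positivity, ?_⟩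
  intro ν q h hq
  haveI := h.prob
  have hb0 : box (axis d 0) (2 * κ) ⊆ Λ := box_mono (by omega)
  have hbn : box (axis d n) (2 * κ) ⊆ Λ := box_axis_subset
  have hself : ∀ k : ℕ, axis d k ∈ box (axis d k) (2 * κ) := by
    intro k; rw [mem_box]; intro i; simp
  have hseg : seg d n ⊆ Λ := by
    intro v hv
    obtain ⟨k, hk, rfl⟩ := mem_seg.1 hv
    have := (box_axis_subset (d := d) (m := k) (κ := κ)) (hself k)
    exact box_mono (by omega) this
  have hax : ({axis d n} : Finset (Fin d → ℤ)) ⊆ Λ := by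
    rw [Finset.singleton_subset_iff]
    exact hbn (hself n)
  have hlow := lower hd2 hd h Λ n hn hseg hax
  have hupp := upper hd2 hd h (κ := κ) (m := m) hκ1 (by omega)
  set a := (QQ d ν).real (evU (box (axis d 0) (2 * κ)) (axis d 0)) with ha
  set b := (QQ d ν).real (evW hd (box (axis d 0) (2 * κ)) (axis d 0)) with hb
  have r1 : a ≤ (QQ d ν).real (evU Λ (axis d 0)) :=
    measureReal_mono (evU_mono hb0 _) (measure_ne_top _ _)
  have r2 : a ≤ (QQ d ν).real (evU Λ (axis d n)) := by
    rw [ha, ← prob_evU_shift h (axis d n) (2 * κ)]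
    exact measureReal_mono (evU_mono hbn _) (measure_ne_top _ _)
  have r3 : b ≤ (QQ d ν).real (evW hd Λ (axis d 0)) :=
    measureReal_mono (evW_mono hd hb0 _) (measure_ne_top _ _)
  have r4 : b ≤ (QQ d ν).real (evW hd Λ (axis d n)) := by
    rw [hb, ← prob_evW_shift hd h (axis d n) (2 * κ)]
    exact measureReal_mono (evW_mono hd hbn _) (measure_ne_top _ _)
  have r5 : (QQ d ν).real (evW hd Λ (axis d n)) ≤ (QQ d ν).real (evU Λ (axis d n)) :=
    measureReal_mono (evW_subset_evU hd _ _) (measure_ne_top _ _)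
  have r6 : b ≤ a := measureReal_mono (evW_subset_evU hd _ _) (measure_ne_top _ _)
  have hr := real_aux r1 r2 r3 r4 r5 r6 measureReal_le_one measureReal_le_one
  have hq0 := h.pos
  have hqC : (M + C + 1) * q < 1 := by
    rw [lt_div_iff₀ (by positivity)] at hq
    linarith
  have hbern : 1 - M * q ≤ (1 - q) ^ M := by
    have := one_add_mul_le_pow (a := -q) (by linarith [h.le_one]) M
    have e : (1 + -q) = 1 - q := by ring
    rw [e] at this
    linarith
  have hpow : q ^ κ = q ^ (κ - 1) * q := by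
    rw [← pow_succ]; congr 1; omega
  have hpos : 0 < q ^ (κ - 1) := pow_pos hq0 _
  have hfin : C * q ^ κ < (1 - q) ^ M * q ^ (κ - 1) := by
    rw [hpow]
    have : C * q < (1 - q) ^ M := by nlinarith
    nlinarith
  have hCsplit : C * q ^ κ = ((((Λ.powerset ×ˢ Λ.powerset).card : ℝ)
          + 2 * ((Λ.powerset.card : ℝ) * ((Λ.powerset ×ˢ Λ.powerset).card : ℝ)
            * 2 ^ (touch Λ).card))) * q ^ κ
            + (2 ^ (inn (box (axis d 0) (m + 2 * κ))).card : ℝ) * q ^ κ := by
    rw [hC]; ring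
  linarith

lemma kap_bound {n : ℕ} (hd2 : 2 ≤ d) (hn : 1 ≤ n) : n + 4 * kap d n + 3 ≤ 24 * d * n := by
  obtain ⟨e, rfl⟩ : ∃ e, d = e + 2 := ⟨d - 2, by omega⟩
  obtain ⟨p, rfl⟩ : ∃ p, n = p + 1 := ⟨n - 1, by omega⟩
  have h1 : e + 2 - 1 = e + 1 := by omega
  rw [kap, h1]
  ring_nf
  nlinarith [Nat.zero_le (e * p)]

/-- a window of far points at once -/
theorem one_level_win (hd2 : 2 ≤ d) (n : ℕ) (hn : 1 ≤ n) (W : ℕ) :
    ∃ (q₀ : ℝ), 0 < q₀ ∧ ∀ m, 24 * d * n ≤ m → m ≤ W →
      ∀ (ν : Measure (Fin 3)) (q : ℝ), Lev ν q → q < q₀ →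
      (QQ d ν).real (evN d m (kap d n)) < (QQ d ν).real (evE d n) := by
  induction W with
  | zero =>
    refine ⟨1, one_pos, ?_⟩
    intro m h1 h2
    exfalso
    have : 0 < 24 * d * n := by positivity
    omega
  | succ W ih =>
    obtain ⟨q₁, hq₁, h₁⟩ := ih
    by_cases hW : 24 * d * n ≤ W + 1
    · obtain ⟨q₂, hq₂, h₂⟩ := one_level_all hd2 n hn (W + 1) ((kap_bound hd2 hn).trans hW)
      refine ⟨min q₁ q₂, lt_min hq₁ hq₂, ?_⟩
      intro m h3 h4 ν q hl hq
      rcases Nat.lt_or_ge m (W + 1) with h5 | h5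
      · exact h₁ m h3 (by omega) ν q hl (hq.trans_le (min_le_left _ _))
      · have : m = W + 1 := by omega
        subst this
        exact h₂ ν q hl (hq.trans_le (min_le_right _ _))
    · refine ⟨q₁, hq₁, ?_⟩
      intro m h3 h4 ν q hl hq
      exact h₁ m h3 (by omega) ν q hl hq

/-- One level produces a violation at the height `V + V / 2`. -/
lemma violation' (hd : 2 ≤ d) {n m κ : ℕ}
    {F : Measure ℝ≥0} [IsProbabilityMeasure F] {V L : ℝ≥0} {q q₀ : ℝ}
    (hone : ∀ (ν : Measure (Fin 3)) (q : ℝ), Lev ν q → q < q₀ →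
      (QQ d ν).real (evN d m κ) < (QQ d ν).real (evE d n))
    (hL : 0 < L) (hV : (4 * (box (axis d 0) (m + 2 * κ)).card + 4) * L ≤ V)
    (hq0 : 0 < q) (hq1 : q ≤ 1) (hq : q < q₀)
    (hF1 : F (Set.Ici V) = ENNReal.ofReal q)
    (hF2 : F (Set.Ici (2 * V)) = ENNReal.ofReal (2 * q ^ 2))
    (hFn : F {x | (L < x ∧ x < V) ∨ (V < x ∧ x < 2 * V)} = 0) :
    law d F {τ | V + V / 2 < T τ (axis d 0) (axis d m)} <
      law d F {τ | V + V / 2 < T τ (axis d 0) (axis d n)} := by
  set S := box (axis d 0) (m + 2 * κ) with hS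
  have hVpos : 0 < V := lt_of_lt_of_le (by positivity) hV
  have hLV : L ≤ V := by
    refine le_trans ?_ hV
    have : (1 : ℝ≥0) ≤ 4 * (S.card : ℝ≥0) + 4 := by
      have : (1 : ℝ≥0) ≤ 4 := by norm_num
      exact this.trans le_add_self
    exact le_mul_of_one_le_left (by positivity) this
  have hVL : V + 2 * S.card * L < V + V / 2 := by
    apply add_lt_add_right
    have e : (4 * (S.card : ℝ≥0) + 4) * L / 2 = 2 * S.card * L + 2 * L := by
      rw [← NNReal.coe_inj]; push_cast; ring
    have e2 : (4 * (S.card : ℝ≥0) + 4) * L / 2 ≤ V / 2 := by gcongr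
    refine lt_of_lt_of_le ?_ e2
    rw [e]
    exact lt_add_of_pos_right _ (by positivity)
  have hV2 : V + V / 2 < 2 * V := by
    have : V / 2 < V := NNReal.half_lt_self hVpos.ne'
    rw [two_mul]
    exact add_lt_add_right this V
  set ν := F.map (lev V) with hν
  have hlev : Lev ν q := by
    refine ⟨Measure.isProbabilityMeasure_map (measurable_lev V).aemeasurable, hq0, hq1, ?_, ?_⟩
    · rw [measureReal_def, hν, Measure.map_apply (measurable_lev V)
        (Set.Finite.measurableSet (Set.toFinite _))]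
      have e : lev V ⁻¹' {i | 1 ≤ (i : ℕ)} = Set.Ici V := by
        ext x
        simp only [Set.mem_preimage, Set.mem_setOf_eq, Set.mem_Ici, lev]
        constructor
        · intro h
          by_contra h'
          rw [not_le] at h'
          rw [if_pos h'] at h
          simp at h
        · intro h
          rw [if_neg (not_lt.2 h)]
          split_ifs <;> simp
      rw [e, hF1, ENNReal.toReal_ofReal hq0.le]
    · rw [measureReal_def, hν, Measure.map_apply (measurable_lev V)
        (Set.Finite.measurableSet (Set.toFinite _))]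
      have e : lev V ⁻¹' {i | 2 ≤ (i : ℕ)} = Set.Ici (2 * V) := by
        ext x
        simp only [Set.mem_preimage, Set.mem_setOf_eq, Set.mem_Ici, lev]
        constructor
        · intro h
          by_contra h'
          rw [not_le] at h'
          rw [if_pos h'] at h
          split_ifs at h <;> simp at h
        · intro h
          have h1 : V ≤ x := le_trans (by rw [two_mul]; exact le_add_self) h
          rw [if_neg (not_lt.2 h1), if_neg (not_lt.2 h)]
          simp
      rw [e, hF2, ENNReal.toReal_ofReal (by positivity)]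
  have hlt := hone ν q hlev hq
  haveI := hlev.prob
  have hmeas : Measurable (fun (τ : Edge d → ℝ≥0) e => lev V (τ e)) :=
    measurable_pi_lambda _ (fun e => (measurable_lev V).comp (measurable_pi_apply e))
  have hup : law d F {τ | V + V / 2 < T τ (axis d 0) (axis d m)} ≤ QQ d ν (evN d m κ) := by
    rw [← map_law d F V]
    refine le_trans ?_ (Measure.le_map_apply hmeas.aemeasurable _)
    apply measure_mono_ae
    filter_upwards [ae_good (d := d) hFn] with τ hτ hT
    show (fun e => lev V (τ e)) ∈ evN d m κ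
    intro hR
    have hgood : ∀ e, τ e ≤ L ∨ τ e = V ∨ 2 * V ≤ τ e := by
      intro e
      have this : ¬ ((L < τ e ∧ τ e < V) ∨ (V < τ e ∧ τ e < 2 * V)) := hτ e
      push Not at this
      rcases le_or_gt (τ e) L with h | h
      · exact Or.inl h
      · right
        have h1 := this.1 h
        rcases h1.eq_or_lt with h2 | h2
        · exact Or.inl h2.symm
        · exact Or.inr (this.2 h2)
    have := T_le hVpos hLV hgood hR
    exact absurd (lt_of_lt_of_le hT this) (not_lt.2 hVL.le)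
  have hlow : QQ d ν (evE d n) ≤ law d F {τ | V + V / 2 < T τ (axis d 0) (axis d n)} := by
    rw [← map_law d F V, Measure.map_apply hmeas (meas_evE d n)]
    apply measure_mono
    intro τ hτ
    exact lt_of_lt_of_le hV2 (le_T (exists_path_axis (by omega) n) hτ)
  refine lt_of_le_of_lt hup (lt_of_lt_of_le ?_ hlow)
  rw [measureReal_def, measureReal_def] at hlt
  exact (ENNReal.toReal_lt_toReal (measure_ne_top _ _) (measure_ne_top _ _)).1 hlt

/-- the tail of `mix` beyond `M₀` -/
lemma mix_Ioi {G : Measure ℝ≥0} {s : ℕ → ℝ} {v : ℕ → ℝ≥0} {M₀ : ℝ≥0}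
    (hG : G (Set.Ioi M₀) = 0) (hs : Antitone s) (h0 : Tendsto s atTop (𝓝 0))
    (hv : StrictMono v) (hM : M₀ < v 0) (hvt : ∀ y : ℝ≥0, ∃ k, y < v k)
    {g : ℝ≥0 → ℝ} (hg : Antitone g) (hsg : ∀ j, s j ≤ g (v j))
    (x : ℝ≥0) (hx : M₀ ≤ x) : mix G s v (Set.Ioi x) ≤ ENNReal.ofReal (g x) := by
  classical
  have hex : ∃ k, x < v k := hvt x
  set k := Nat.find hex with hk
  have hxk : x < v k := Nat.find_spec hex
  have hmin : ∀ j, j < k → v j ≤ x := fun j hj => not_lt.1 (Nat.find_min hex hj)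
  have hsplit : Set.Ioi x ⊆ Set.Ici (v k) ∪ {y | x < y ∧ y < v k} := by
    intro y hy
    rcases le_or_gt (v k) y with h | h
    · exact Or.inl h
    · exact Or.inr ⟨hy, h⟩
  have hnull : mix G s v {y | x < y ∧ y < v k} = 0 := by
    apply mix_null hG
    · exact measurableSet_Ioi.inter measurableSet_Iio
    · rintro y ⟨h1, -⟩
      exact lt_of_le_of_lt hx h1
    · rintro j ⟨h1, h2⟩
      have h3 : j < k := hv.lt_iff_lt.1 h2
      exact absurd h1 (not_lt.2 (hmin j h3))
  calc mix G s v (Set.Ioi x) ≤ mix G s v (Set.Ici (v k) ∪ {y | x < y ∧ y < v k}) :=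
        measure_mono hsplit
    _ ≤ mix G s v (Set.Ici (v k)) + mix G s v {y | x < y ∧ y < v k} := measure_union_le _ _
    _ = ENNReal.ofReal (s k) := by
        rw [hnull, add_zero, mix_Ici hG hs h0 hv hM k]
    _ ≤ ENNReal.ofReal (g x) := ENNReal.ofReal_le_ofReal ((hsg k).trans (hg hxk.le))

end Pool.Agent.Y244.FPP
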